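import Pool.Agent.N437.QR.Stm

/-!
# Project QR, leaf ZB: the partition function is `1 + O(|η| ^ 3)`
-/

set_option autoImplicit false

namespace Pool.Agent.N540.QR

open Finset Pool.Agent.N437.QR

theorem sg_not (b : Bool) : sg (!b) = -sg b := by cases b <;> simp [sg]

theorem abs_sg (b : Bool) : |sg b| = 1 := by cases b <;> simp [sg]

theorem abs_sg2 (z : Sym2 Bool) : |sg2 z| = 1 := by
  induction z with
  | _ a b =>
    show |sg a * sg b| = 1
    rw [abs_mul, abs_sg, abs_sg, one_mul]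

variable {V : Type} [Fintype V] [DecidableEq V]

theorem sum_eq_zero (T : Finset (Sym2 V)) (e₀ : Sym2 V) (he₀ : e₀ ∈ T) (hd : ¬ e₀.IsDiag) (a : V) (ha : a ∈ e₀)
    (hT : ∀ e ∈ T, e ≠ e₀ → a ∉ e) : ∑ y : V → Bool, ∏ e ∈ T, sg2 (e.map y) = 0 := by
  have hinv : Function.Involutive fun y : V → Bool => Function.update y a (!y a) := by
    intro y
    funext v
    by_cases hv : v = a
    · subst hv
      simp
    · simp [hv]
  have h1 : ∀ y : V → Bool, ∏ e ∈ T, sg2 (e.map (Function.update y a (!y a))) = -∏ e ∈ T, sg2 (e.map y) := by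
    intro y
    rw [← mul_prod_erase T (fun e => sg2 (e.map (Function.update y a (!y a)))) he₀,
      ← mul_prod_erase T (fun e => sg2 (e.map y)) he₀, ← neg_mul]
    congr 1
    · obtain ⟨b, rfl⟩ := ha
      have hab : a ≠ b := fun h => hd (by rw [h]; exact Sym2.mk_isDiag_iff.2 rfl)
      show sg (Function.update y a (!y a) a) * sg (Function.update y a (!y a) b) = -(sg (y a) * sg (y b))
      rw [Function.update_self, Function.update_of_ne hab.symm, sg_not, neg_mul]
    · apply prod_congr rfl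
      intro e he
      rw [mem_erase] at he
      congr 1
      apply Sym2.map_congr
      intro x hx
      have hxa : x ≠ a := fun h => hT e he.2 he.1 (h ▸ hx)
      rw [Function.update_of_ne hxa]
  have h2 : ∑ y : V → Bool, ∏ e ∈ T, sg2 (e.map y) =
      ∑ y : V → Bool, ∏ e ∈ T, sg2 (e.map (Function.update y a (!y a))) :=
    (Equiv.sum_comp (hinv.toPerm _) fun y => ∏ e ∈ T, sg2 (e.map y)).symm
  have h3 : ∑ y : V → Bool, ∏ e ∈ T, sg2 (e.map (Function.update y a (!y a))) =
      -∑ y : V → Bool, ∏ e ∈ T, sg2 (e.map y) := by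
    rw [← sum_neg_distrib]
    exact sum_congr rfl fun y _ => h1 y
  linarith

theorem sum_eq_zero_of_card (T : Finset (Sym2 V)) (hd : ∀ e ∈ T, ¬ e.IsDiag) (h0 : T.card ≠ 0) (h2 : T.card ≤ 2) :
    ∑ y : V → Bool, ∏ e ∈ T, sg2 (e.map y) = 0 := by
  have h12 : T.card = 1 ∨ T.card = 2 := by omega
  rcases h12 with h1 | h2
  · obtain ⟨e, rfl⟩ := card_eq_one.1 h1
    obtain ⟨a, b⟩ := e
    exact sum_eq_zero _ s(a, b) (mem_singleton_self _) (hd _ (mem_singleton_self _)) a (Sym2.mem_mk_left a b)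
      fun e he hne => absurd (mem_singleton.1 he) hne
  · obtain ⟨e, e', hne, rfl⟩ := card_eq_two.1 h2
    have he : ¬ e.IsDiag := hd e (by simp)
    induction e with
    | _ a b =>
      have hab : a ≠ b := fun h => he (by rw [h]; exact Sym2.mk_isDiag_iff.2 rfl)
      have hor : a ∉ e' ∨ b ∉ e' := by
        by_contra hcon
        push Not at hcon
        exact hne ((Sym2.mem_and_mem_iff hab).1 hcon).symm
      rcases hor with h | h
      · refine sum_eq_zero _ s(a, b) (by simp) he a (Sym2.mem_mk_left a b) fun e he hne => ?_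
        rcases mem_insert.1 he with h' | h'
        · exact absurd h' hne
        · rw [mem_singleton.1 h']
          exact h
      · refine sum_eq_zero _ s(a, b) (by simp) he b (Sym2.mem_mk_right a b) fun e he hne => ?_
        rcases mem_insert.1 he with h' | h'
        · exact absurd h' hne
        · rw [mem_singleton.1 h']
          exact h

theorem abs_sum_le (T : Finset (Sym2 V)) :
    |((2 : ℝ) ^ Fintype.card V)⁻¹ * ∑ y : V → Bool, ∏ e ∈ T, sg2 (e.map y)| ≤ 1 := by
  have h1 : |∑ y : V → Bool, ∏ e ∈ T, sg2 (e.map y)| ≤ 2 ^ Fintype.card V := by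
    calc |∑ y : V → Bool, ∏ e ∈ T, sg2 (e.map y)| ≤ ∑ y : V → Bool, |∏ e ∈ T, sg2 (e.map y)| := abs_sum_le_sum_abs _ _
      _ = ∑ _y : V → Bool, (1 : ℝ) := by
        apply sum_congr rfl
        intro y _
        rw [abs_prod]
        exact prod_eq_one fun e _ => abs_sg2 _
      _ = 2 ^ Fintype.card V := by
        rw [sum_const, nsmul_eq_mul, mul_one, card_univ, Fintype.card_fun, Fintype.card_bool]
        push_cast
        rfl
  have h2 : (0 : ℝ) < 2 ^ Fintype.card V := by positivity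
  rw [abs_mul, abs_inv, abs_of_pos h2, inv_mul_le_iff₀ h2, mul_one]
  exact h1

theorem Zf_eq (E : Finset (Sym2 V)) (η : ℝ) :
    Zf E η = ∑ T ∈ E.powerset, η ^ T.card *
      (((2 : ℝ) ^ Fintype.card V)⁻¹ * ∑ y : V → Bool, ∏ e ∈ T, sg2 (e.map y)) := by
  unfold Zf
  have h1 : ∀ y : V → Bool, ∏ e ∈ E, (1 + η * sg2 (e.map y)) =
      ∑ T ∈ E.powerset, η ^ T.card * ∏ e ∈ T, sg2 (e.map y) := by
    intro y
    rw [prod_one_add]
    apply sum_congr rfl
    intro T _
    rw [prod_mul_distrib, prod_const]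
  simp_rw [h1]
  rw [sum_comm, mul_sum]
  apply sum_congr rfl
  intro T _
  rw [← mul_sum]
  ring

theorem t_ZB : S_ZB := by
  intro V _ _ E η hE hη
  have h1 : (1 : ℝ) = ∑ T ∈ E.powerset, if T = ∅ then (1 : ℝ) else 0 := by
    rw [sum_ite_eq' E.powerset ∅ fun _ => (1 : ℝ), if_pos (empty_mem_powerset E)]
  have h2 : Zf E η - 1 = ∑ T ∈ E.powerset, (η ^ T.card *
      (((2 : ℝ) ^ Fintype.card V)⁻¹ * ∑ y : V → Bool, ∏ e ∈ T, sg2 (e.map y)) - if T = ∅ then (1 : ℝ) else 0) := by
    rw [sum_sub_distrib, ← Zf_eq, ← h1]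
  rw [h2]
  calc |∑ T ∈ E.powerset, (η ^ T.card *
      (((2 : ℝ) ^ Fintype.card V)⁻¹ * ∑ y : V → Bool, ∏ e ∈ T, sg2 (e.map y)) - if T = ∅ then (1 : ℝ) else 0)|
      ≤ ∑ T ∈ E.powerset, |η ^ T.card *
      (((2 : ℝ) ^ Fintype.card V)⁻¹ * ∑ y : V → Bool, ∏ e ∈ T, sg2 (e.map y)) - if T = ∅ then (1 : ℝ) else 0| :=
        abs_sum_le_sum_abs _ _
    _ ≤ ∑ _T ∈ E.powerset, |η| ^ 3 := by
        apply sum_le_sum
        intro T hT
        rw [mem_powerset] at hT
        by_cases h0 : T = ∅
        · subst h0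
          have h3 : ((2 : ℝ) ^ Fintype.card V)⁻¹ * ∑ y : V → Bool, ∏ e ∈ (∅ : Finset (Sym2 V)), sg2 (e.map y) = 1 := by
            simp only [prod_empty, sum_const, nsmul_eq_mul, mul_one, card_univ, Fintype.card_fun, Fintype.card_bool]
            push_cast
            exact inv_mul_cancel₀ (by positivity)
          rw [h3, card_empty, pow_zero, one_mul, if_pos rfl, sub_self, abs_zero]
          positivity
        · rw [if_neg h0, sub_zero, abs_mul, abs_pow]
          by_cases h2 : T.card ≤ 2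
          · rw [sum_eq_zero_of_card T (fun e he => hE e (hT he)) (by rwa [Ne, card_eq_zero]) h2, mul_zero, abs_zero,
              mul_zero]
            positivity
          · calc |η| ^ T.card * |((2 : ℝ) ^ Fintype.card V)⁻¹ * ∑ y : V → Bool, ∏ e ∈ T, sg2 (e.map y)|
                ≤ |η| ^ T.card * 1 := mul_le_mul_of_nonneg_left (abs_sum_le T) (by positivity)
              _ = |η| ^ T.card := mul_one _
              _ ≤ |η| ^ 3 := pow_le_pow_of_le_one (abs_nonneg _) hη (by omega)
    _ = 2 ^ E.card * |η| ^ 3 := by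
        rw [sum_const, nsmul_eq_mul, card_powerset]
        push_cast
        rfl

end Pool.Agent.N540.QR
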